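import Mathlib
import Pool.Agent.Helper5.PiFew.Lower
import Pool.Agent.Helper5.PiAbs.Upper2
import Pool.Graph.R_pool_sql_team_seeded_1e53cb71.Results.MP_57632f_nt.PrimeMultiplesOfPi

/-!
# How many digits of `y` have to be changed to make `π y` absolutely normal

Q1 says that `π y` is normal in base `10` for `y = 1`, without changing any digit of `y`. We determine
how many digits of `y` have to be changed when of the number `x = π` only is used that it is irrational
and not a Liouville number: more than any constant multiple of `N / log N` of the first `N` digits, and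
then the product can be made normal in all bases at once.

(1) If `f N * log N / N → ∞`, then, for every countable set of digit sequences in base `b` and every
countable set of pairs `(x, c)` with `x` irrational and not a Liouville number, there is a set `A` of
places, at most `f N` of them below `N`, such that, for all these digit sequences `d`, after a change by
one of the digits exactly at the places in `A` all the numbers `x * 0.D₀D₁D₂… + c` are normal in every
base `g ≥ 2` (absolutely normal).
For `d = 0` and `x = c = π` this is the number `π (1 + ∑ j ∈ A, b ^ (-j - 1))`.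

(2) This is best possible for these `x`, already for `d = 0`, `c = 0`, single numbers `x` and the single
base `b`.

Proof of (1): the places are chosen at random with density `p i` in the `i`-th block `[i², (i+1)²)`, where
`p i * log i → ∞`, and the second moments of the exponential sums over the corresponding blocks of times
in base `g` are shown to be small.
For `g = b`, every window `[K, K + κ (K + C)]` holds a place where `b ^ k h (b ^ d - 1) x` is far from the
integers, so that for most pairs `m < n` of a block of times of length `M` at least `c log M` places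
act on `h (b ^ n - b ^ m) x y`.
For `g` multiplicatively independent of `b` write `g ^ q = b ^ p₀ ρ` with `q ≤ 4 b X` and `ρ` close to `1`
(Dirichlet), where `X` is a small power of the length of the block. If `|ρ - 1| ≥ b ^ (-X ^ 3)`, then for
`m = m₀ + q r`, `r < X`, the leading base `b` digits of `h (g ^ (m + d) - g ^ m) x` move slowly and
monotonely with `r`, and at `c log X` places they run through all values equally often. If
`|ρ - 1| < b ^ (-X ^ 3)`, then `g ^ m` is so close to a fixed number with few digits times a power of `b`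
that the irrationality measure of `x` gives `c log X` places which act, as for `g = b`. (No bound for
linear forms in logarithms is used.)
For `g` multiplicatively dependent on `b` normality is transferred from base `b`.
Blocks are treated one after the other, and derandomised.
Proof of (2): `x = ∑ b ^ (-K ^ i)`, and the mean of the fractional parts of `b ^ n x y`.
-/

set_option autoImplicit false

open Finset Filter Topology

namespace Pool.Agent.Results.MP_57632f_nt.AbsolutelyNormalProducts

/-- `y` is normal in base `b` (for `y = π`, `b = 10` this is Q1); `y` is absolutely normal when it is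
normal in every base `b ≥ 2` -/
def Normal (b : ℕ) (y : ℝ) : Prop :=
  ∀ k : ℕ, 0 < k → ∀ w : Fin k → Fin b,
    Tendsto (fun n : ℕ => (((range n).filter (fun i : ℕ => ∀ j : Fin k,
      ⌊y * (b : ℝ) ^ (i + 1 + (j : ℕ))⌋ % b = ((w j : ℕ) : ℤ))).card : ℝ) / n)
      atTop (𝓝 (1 / (b : ℝ) ^ k))

lemma flip_diff {b : ℕ} (hb : 2 ≤ b) (v : Fin b) :
    |((Pool.Agent.Helper5.PiFew.flip v : ℕ) : ℤ) - ((v : ℕ) : ℤ)| = 1 := by
  unfold Pool.Agent.Helper5.PiFew.flip
  split_ifs with h
  · push_cast
    simp
  · have h1 : 1 ≤ (v : ℕ) := by omega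
    simp only
    rw [Nat.cast_sub h1]
    push_cast
    simp

lemma pi_not_liouville : ¬ Liouville Real.pi := by
  intro h
  obtain ⟨c, hc, hm⟩ := Pool.Agent.Results.MP_57632f_nt.PrimeMultiplesOfPi.pi_measure
  obtain ⟨m, hm2⟩ := exists_nat_gt (1 / c)
  obtain ⟨a, q, hq, _, h2⟩ := h (7 + m)
  have hq0 : (0 : ℝ) < q := by exact_mod_cast (by omega : (0 : ℤ) < q)
  have hq2 : (2 : ℝ) ≤ q := by exact_mod_cast (by omega : (2 : ℤ) ≤ q)
  have hqn : ((q.toNat : ℕ) : ℝ) = q := by
    have : ((q.toNat : ℕ) : ℤ) = q := Int.toNat_of_nonneg (by omega)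
    exact_mod_cast this
  have h3 := hm q.toNat (by omega) a
  rw [hqn] at h3
  have h4 : |(q : ℝ) * Real.pi - a| = q * |Real.pi - a / q| := by
    rw [← abs_of_pos hq0, ← abs_mul, abs_of_pos hq0]
    congr 1
    field_simp
  rw [h4] at h3
  have h5 : (q : ℝ) ^ (5.05 : ℝ) ≤ (q : ℝ) ^ (6 : ℝ) :=
    Real.rpow_le_rpow_of_exponent_le (by linarith) (by norm_num)
  have h6 : (q : ℝ) ^ (6 : ℝ) = (q : ℝ) ^ 6 := by
    rw [← Real.rpow_natCast]; norm_num
  rw [h6] at h5
  have h7 : (0 : ℝ) ≤ q * |Real.pi - a / q| := by positivity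
  have h8 : c ≤ (q : ℝ) ^ 6 * (q * |Real.pi - a / q|) :=
    h3.trans (mul_le_mul_of_nonneg_right h5 h7)
  have h9 : (q : ℝ) ^ 6 * (q * |Real.pi - a / q|) ≤ 1 / (q : ℝ) ^ m := by
    calc (q : ℝ) ^ 6 * (q * |Real.pi - a / q|) = (q : ℝ) ^ 7 * |Real.pi - a / q| := by ring
      _ ≤ (q : ℝ) ^ 7 * (1 / (q : ℝ) ^ (7 + m)) := by gcongr
      _ = 1 / (q : ℝ) ^ m := by rw [pow_add]; field_simp
  have h10 : (m : ℝ) < (q : ℝ) ^ m := by
    have h11 : (m : ℝ) < (2 : ℝ) ^ m := by exact_mod_cast Nat.lt_two_pow_self
    exact h11.trans_le (pow_le_pow_left₀ (by norm_num) hq2 m)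
  have hqm : (0 : ℝ) < (q : ℝ) ^ m := by positivity
  have h11 := h8.trans h9
  rw [le_div_iff₀ hqm] at h11
  rw [div_lt_iff₀ hc] at hm2
  nlinarith

/-- **Few changes of the factor make the product absolutely normal.** -/
theorem result (b : ℕ) (hb : 2 ≤ b) (f : ℕ → ℝ) :
    -- (1) more than `N / log N` changes suffice, at common places for countably many numbers, and
    -- for all bases `g` at once
    (Tendsto (fun N : ℕ => f N * Real.log N / N) atTop atTop →
      ∀ (Y : Set (ℕ → Fin b)) (X : Set (ℝ × ℝ)), Y.Countable → X.Countable →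
        (∀ x ∈ X, Irrational x.1 ∧ ¬ Liouville x.1) →
        ∃ A : Set ℕ, (∀ᶠ N : ℕ in atTop, (({j : ℕ | j < N ∧ j ∈ A}.ncard : ℕ) : ℝ) ≤ f N) ∧
          ∀ d ∈ Y, ∃ D : ℕ → Fin b,
            (∀ j, (j ∈ A → |((D j : ℕ) : ℤ) - ((d j : ℕ) : ℤ)| = 1) ∧ (j ∉ A → D j = d j)) ∧
            ∀ x ∈ X, ∀ g : ℕ, 2 ≤ g → Normal g (x.1 * Real.ofDigits D + x.2)) ∧
    -- (2) and fewer do not suffice, already for the digits of `0`, one number `x` at a time, and
    -- normality in the single base `b`
    ((∀ x : ℝ, Irrational x → ¬ Liouville x → ∃ D : ℕ → Fin b,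
        (∀ᶠ N : ℕ in atTop, (({j : ℕ | j < N ∧ (D j : ℕ) ≠ 0}.ncard : ℕ) : ℝ) ≤ f N) ∧
        Normal b (x * Real.ofDigits D)) →
      Tendsto (fun N : ℕ => f N * Real.log N / N) atTop atTop) ∧
    -- (3) `x = π` is allowed
    (Irrational Real.pi ∧ ¬ Liouville Real.pi) := by
  refine ⟨?_, ?_, irrational_pi, pi_not_liouville⟩
  · intro hf Y X hY hX hXi
    obtain ⟨A, hA1, hA2⟩ := Pool.Agent.Helper5.PiAbs.upper2 b hb f hf Y hY X hX hXi
    refine ⟨A, hA1, fun d hd => ⟨Pool.Agent.Helper5.PiFew.chg A d, ?_, fun x hx => hA2 d hd x hx⟩⟩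
    intro j
    refine ⟨fun hj => ?_, fun hj => Pool.Agent.Helper5.PiFew.chg_notMem A d j hj⟩
    rw [Pool.Agent.Helper5.PiFew.chg_mem A d j hj]
    exact flip_diff hb (d j)
  · intro H
    apply Pool.Agent.Helper5.PiFew.lower b hb f
    intro x hx hL
    obtain ⟨D, hD1, hD2⟩ := H x hx hL
    refine ⟨D, ?_, hD2⟩
    filter_upwards [hD1] with N hN
    have h1 : {j : ℕ | j < N ∧ D j ≠ ⟨0, by omega⟩} = {j : ℕ | j < N ∧ (D j : ℕ) ≠ 0} := by
      ext j
      simp only [Set.mem_ofPred_eq, ne_eq, Fin.ext_iff]
    rw [h1]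
    exact hN

end Pool.Agent.Results.MP_57632f_nt.AbsolutelyNormalProducts
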