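import Pool.Agent.Helper34.NF.Sparse

/-!
# Which functions decide normality

Weyl's criterion, for the orbit of a real number `x` under multiplication by `b`, tests the means of
`exp (2 π i m b ^ n x)` for all integers `m ≠ 0`.  Here the exponential function is replaced by the
dilates of one function `f`: the number `x` passes the test with `f` and `m` if the mean of the
numbers `f (m b ^ n x)` is the integral of `f` over a period.  Normal numbers pass these tests.

* For the functions `f` with an absolutely convergent Fourier series (for instance the Lipschitz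
  functions) it is determined when the tests are sufficient: exactly if the value of `f` at zero is
  not the integral of `f`.  This is the same condition for all bases, and it is clearly necessary,
  as `x = 0` passes all tests otherwise.  Nothing else about the Fourier coefficients is used, and
  only positive `m` are needed, also for complex functions.
  (Instead of all `m ≥ 1`, it suffices to use a set of integers which contains, for all `n ≥ 1`, a
  number `n b ^ t`.)  So `π` is normal in base `10` if and only if, for all `m ≥ 1`, the distances of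
  the numbers `m 10 ^ n π` to the nearest integers have the mean `1 / 4`.
* The class of the functions cannot be replaced by the class of the continuous functions, for any
  base: there are a real continuous function `f` whose value at zero is not its integral and a number
  which is not normal and passes the tests with `f` for all integers `m ≠ 0`.

The proof of the first part: the means of the dilates along the orbit determine, for a limit `μ` of
the empirical measures, the Fourier coefficients with positive index of the measure
`∑ c h (T h) μ`, where `T h` is the multiplication by `h`.  By (a form of) the theorem of F. and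
M. Riesz this measure is absolutely continuous, up to a point mass.  On small null sets it sees the
singular part `σ` of `μ`, with the total weight `(f 0 - ∫ f) σ`.  So `σ = 0`, and `μ` is invariant
and absolutely continuous, so uniform.

The proof of the second part: let `σ` be the distribution of `∑ ξ p / b ^ p` with independent `ξ p`
in `{-1, 0, 1}`.  The ergodic averages of a trigonometric polynomial converge in the mean with
respect to the images of `σ` under all multiplications by `m ≠ 0`, uniformly in `m` (a product
formula for the Fourier coefficients, and a combinatorial argument for the digits of `m`).  So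
truncations of ergodic averages can be used to correct a function step by step, with small changes,
until its integrals with respect to all these images vanish.
-/

set_option autoImplicit false

open Filter Topology

namespace Pool.Agent.Results.MP_57632f_nt.FunctionsThatSuffice

/-- the digit of `x` in base `b` at the place `i + 1` after the point -/
noncomputable def digit (b : ℕ) (x : ℝ) (i : ℕ) : ℤ := ⌊x * (b : ℝ) ^ (i + 1)⌋ % (b : ℤ)

/-- normality in base `b` -/
def Normal (b : ℕ) (x : ℝ) : Prop :=
  ∀ k : ℕ, 0 < k → ∀ w : Fin k → Fin b,
    Tendsto (fun n : ℕ => (((Finset.range n).filter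
      (fun i : ℕ => ∀ j : Fin k, digit b x (i + (j : ℕ)) = (((w j : ℕ)) : ℤ))).card : ℝ) / (n : ℝ))
      atTop (𝓝 ((1 : ℝ) / (b : ℝ) ^ k))

/-- `f` is the sum of an absolutely convergent Fourier series -/
def AbsConv (f : ℝ → ℂ) : Prop :=
  ∃ c : ℤ → ℂ, Summable (fun h => ‖c h‖) ∧
    ∀ y : ℝ, f y = ∑' h : ℤ, c h * Complex.exp (2 * Real.pi * Complex.I * h * y)

/-- the number `x` passes the tests with the function `f` and the integers in `M`: for all `m` in
`M`, the mean of the numbers `f (m b ^ n x)` is the integral of `f` over the unit interval -/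
def Passes (M : Set ℤ) (f : ℝ → ℂ) (b : ℕ) (x : ℝ) : Prop :=
  ∀ m ∈ M, Tendsto (fun N : ℕ => (∑ n ∈ Finset.range N, f (m * (b : ℝ) ^ n * x)) / (N : ℂ))
    atTop (𝓝 (∫ y in (0 : ℝ)..1, f y))

/-- for all `n ≥ 1`, the set `M` contains a number `n b ^ t` -/
def Reaches (b : ℕ) (M : Set ℤ) : Prop :=
  ∀ n : ℤ, 1 ≤ n → ∃ t : ℕ, n * (b : ℤ) ^ t ∈ M

open Pool.Agent.Helper34.NF

lemma exp_eq (c : ℤ → ℂ) (y : ℝ) :
    ∑' h : ℤ, c h * Complex.exp (2 * Real.pi * Complex.I * h * y) = Fn c y := by
  unfold Fn Q241.SW.e
  refine tsum_congr fun h => ?_
  congr 2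
  push_cast
  ring

lemma passes_iff (M : Set ℤ) (f : ℝ → ℂ) (b : ℕ) (x : ℝ) :
    Passes M f b x ↔ TestsAt M f (∫ y in (0 : ℝ)..1, f y) b x := by
  unfold Passes TestsAt
  refine forall₂_congr fun m hm => ?_
  have : ∀ N : ℕ, (∑ n ∈ Finset.range N, f (m * (b : ℝ) ^ n * x)) / (N : ℂ) =
      Q241.SW.avg (fun n => f (m * ((b : ℝ) ^ n * x))) N := by
    intro N
    unfold Q241.SW.avg
    simp_rw [mul_assoc]
  simp_rw [this]

/-- **Which functions decide normality.** -/
theorem result :
    (∀ f : ℝ → ℂ, AbsConv f → ∀ b : ℕ, 2 ≤ b → ∀ M : Set ℤ, (0 : ℤ) ∉ M → Reaches b M →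
      ((∀ x : ℝ, Normal b x ↔ Passes M f b x) ↔ f 0 ≠ ∫ y in (0 : ℝ)..1, f y)) ∧
    (∀ b : ℕ, 2 ≤ b → ∃ f : ℝ → ℝ, Continuous f ∧ (∀ y, f (y + 1) = f y) ∧
      f 0 ≠ ∫ y in (0 : ℝ)..1, f y ∧
      ∃ x : ℝ, ¬ Normal b x ∧ Passes {m | m ≠ 0} (fun y => (f y : ℂ)) b x) ∧
    (Normal 10 Real.pi ↔ ∀ m : ℕ, 1 ≤ m → Tendsto (fun N : ℕ =>
      (∑ n ∈ Finset.range N, |m * (10 : ℝ) ^ n * Real.pi - round (m * (10 : ℝ) ^ n * Real.pi)|) /
        (N : ℝ)) atTop (𝓝 (1 / 4))) := by
  refine ⟨?_, ?_, ?_⟩
  · rintro f ⟨c, hc, hf⟩ b hb M hM0 hM
    have hf' : f = Fn c := by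
      funext y
      rw [hf, exp_eq]
    simp_rw [passes_iff]
    rw [hf', FC_unit hc]
    exact exactAt hc b hb M hM0 hM
  · intro b hb
    obtain ⟨f, h1, h2, h3, x, h4, h5⟩ := counter_real b hb
    exact ⟨f, h1, h2, h3, x, h4, (passes_iff _ _ _ _).2 h5⟩
  · have h := dist_iff 10 (by norm_num) Real.pi
    push_cast at h
    exact h

end Pool.Agent.Results.MP_57632f_nt.FunctionsThatSuffice
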