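import Pool.Agent.Helper28.IV2.A
import Pool.Agent.Helper30.IV2.N
import Pool.Agent.Helper54.IV2.C
import Pool.Agent.Helper54.IV2.Z
import Pool.Agent.Helper76.IV2.D

/-!
# Which places in which intervals decide normality

Let `b ≥ 2`, let `S` be a set of places and let `I j = [u j, v j)` be intervals such that the number of
the places of `S` in `I j` tends to infinity.  We call a real number normal along `S` and the intervals
if the words which begin at the places of `S` in `I j` have the expected frequencies in its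
expansion in base `b`, as `j → ∞`.  For `S = ℕ` and `I j = [0, j)` this is normality.

* The covering condition: for every `ε > 0` there are `K` and `C` such that, for all large `N`, all
  but at most `ε N` of the digits at the places `n < N` belong to a word of length `K` which begins at
  a place of `S` in an interval `I j` contained in `[0, C N)`.
* (1) If it holds, then every real number such that every word of length `k` has, at the places of
  `S` in the intervals, an upper frequency of at most `C b ^ (-k)` is normal.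
* (2) If it fails, and some real number is normal along `S` and the intervals, then some real number
  is normal along them and not normal.
* (3) If the sum of `1 / |S ∩ I j|` converges, then some real number is normal along them.
* (4) Cutoffs: let `S` be infinite and `I j = [0, N j)` with `N` strictly increasing.  Some real
  number is normal along them, and every such real number is normal exactly if the quotients
  `N (j + 1) / N j` are bounded and for every `ε > 0` there is `K` such that the proportion of the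
  windows of `K` places without an element of `S` is at most `ε`.  For `N j = j + 1` these are the
  sets of places which decide normality; for `S = ℕ` these are the sequences of cutoffs which decide
  normality, for instance `N j = 2 ^ j` for `π`.

So it is determined which words at which places decide normality, for all sets of places and all
sequences of intervals, which may overlap or leave gaps.

Proof of (1): a minimal subfamily with the same union covers no place three times, so it contains,
in `[0, C N)`, at most `2 C N` places of `S` with multiplicities; hence the upper frequency of a set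
`E` of words of length `k` is at most `ε + 2 C K C' |E| b ^ (-k)`.  Proof of (2): if most windows meet
`S`, then an interval which is not contained in `[0, C N)` and meets the places below `N` contains
many more than `N` places of `S`.  In a real number normal along `S` and the intervals, all the
digits which are not read, for a rapidly growing sequence of `N`, are made equal.

By helper28 (statements, (1)), helper30 and helper54 ((2)), helper54 ((3)) and helper76 ((4)), with
the files of helper84 on places (all intervals `[0, j)`) and following helper9 and helper88 (`S = ℕ`).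
-/

set_option autoImplicit false

open Filter Topology

namespace Pool.Agent.Results.MP_57632f_nt.PlacesInIntervals

/-- the digit of `x` in base `b` at the place `i + 1` after the point -/
noncomputable def digit (b : ℕ) (x : ℝ) (i : ℕ) : ℤ := ⌊x * (b : ℝ) ^ (i + 1)⌋ % (b : ℤ)

/-- the word `w` stands at the place `i` in the expansion of `x` in base `b` -/
def StandsAt (b : ℕ) (x : ℝ) (i : ℕ) {k : ℕ} (w : Fin k → Fin b) : Prop :=
  ∀ j : Fin k, digit b x (i + (j : ℕ)) = (((w j : ℕ)) : ℤ)

/-- the number of the `i < N` at which the word `w` stands -/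
noncomputable def occ (b : ℕ) (x : ℝ) (N : ℕ) {k : ℕ} (w : Fin k → Fin b) : ℕ :=
  {i : ℕ | i < N ∧ StandsAt b x i w}.ncard

/-- normality in base `b` -/
def Normal (b : ℕ) (x : ℝ) : Prop :=
  ∀ k : ℕ, 0 < k → ∀ w : Fin k → Fin b,
    Tendsto (fun N : ℕ => (occ b x N w : ℝ) / (N : ℝ)) atTop (𝓝 ((1 : ℝ) / (b : ℝ) ^ k))

/-- the number of the places `i` of `S` with `s ≤ i < t` at which the word `w` stands -/
noncomputable def occIn (b : ℕ) (S : Set ℕ) (x : ℝ) (s t : ℕ) {k : ℕ} (w : Fin k → Fin b) : ℕ :=
  {i : ℕ | (s ≤ i ∧ i < t) ∧ i ∈ S ∧ StandsAt b x i w}.ncard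

/-- the number of the places `i` of `S` with `s ≤ i < t` -/
noncomputable def size (S : Set ℕ) (s t : ℕ) : ℕ := {i : ℕ | (s ≤ i ∧ i < t) ∧ i ∈ S}.ncard

/-- normality in base `b` along the set `S` of places and the intervals `[u j, v j)` -/
def NormalAlong (b : ℕ) (S : Set ℕ) (u v : ℕ → ℕ) (x : ℝ) : Prop :=
  ∀ k : ℕ, 0 < k → ∀ w : Fin k → Fin b,
    Tendsto (fun j : ℕ => (occIn b S x (u j) (v j) w : ℝ) / (size S (u j) (v j) : ℝ)) atTop
      (𝓝 ((1 : ℝ) / (b : ℝ) ^ k))

/-- every word of length `k` has, at the places of `S` in the intervals, an upper frequency of at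
most `C b ^ (-k)` -/
def BoundedAlong (b : ℕ) (S : Set ℕ) (u v : ℕ → ℕ) (C : ℝ) (x : ℝ) : Prop :=
  ∀ k : ℕ, 0 < k → ∀ w : Fin k → Fin b, ∀ η : ℝ, 0 < η →
    ∀ᶠ j : ℕ in atTop, (occIn b S x (u j) (v j) w : ℝ) / (size S (u j) (v j) : ℝ) ≤
      C / (b : ℝ) ^ k + η

/-- the number of the places `n < N` which belong to no word of length `K` that begins at a place
`s` of `S` in an interval `[u j, v j)` with `v j ≤ C N` -/
noncomputable def unread (S : Set ℕ) (u v : ℕ → ℕ) (K C N : ℕ) : ℕ :=
  {n : ℕ | n < N ∧ ∀ s ∈ S, s ≤ n → n < s + K →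
    ∀ j, v j ≤ C * N → ¬ (u j ≤ s ∧ s < v j)}.ncard

/-- the covering condition -/
def Covering (S : Set ℕ) (u v : ℕ → ℕ) : Prop :=
  ∀ ε : ℝ, 0 < ε → ∃ K C : ℕ, ∀ᶠ N : ℕ in atTop, (unread S u v K C N : ℝ) / N ≤ ε

/-- the number of the places `n < N` such that there is no element `s` of `S` with
`s ≤ n < s + K` -/
noncomputable def emptyWindows (S : Set ℕ) (K N : ℕ) : ℕ :=
  {n : ℕ | n < N ∧ ∀ s ∈ S, s ≤ n → ¬ n < s + K}.ncard

/-- for every `ε > 0` there is `K` such that the upper density of the places `n` without an element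
`s` of `S` with `s ≤ n < s + K` is at most `ε` -/
def MeetsMostWindows (S : Set ℕ) : Prop :=
  ∀ ε : ℝ, 0 < ε → ∃ K : ℕ, ∀ᶠ N : ℕ in atTop, (emptyWindows S K N : ℝ) / N ≤ ε

/-! ### Comparison with the definitions of the helper files -/

open Pool.Agent.Helper84.Places Pool.Agent.Helper28.IV2

lemma ncard_range (N : ℕ) (p : ℕ → Prop) [DecidablePred p] :
    {i : ℕ | i < N ∧ p i}.ncard = ((Finset.range N).filter p).card := by
  rw [← Set.ncard_coe_finset]
  congr 1
  ext i
  simp

lemma ncard_Ico (s t : ℕ) (p : ℕ → Prop) [DecidablePred p] :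
    {i : ℕ | (s ≤ i ∧ i < t) ∧ p i}.ncard = ((Finset.Ico s t).filter p).card := by
  rw [← Set.ncard_coe_finset]
  congr 1
  ext i
  simp

lemma size_eq (S : Set ℕ) (s t : ℕ) : size S s t = nJ S s t := by
  classical
  unfold size nJ
  rw [ncard_Ico]

lemma unread_eq (S : Set ℕ) (u v : ℕ → ℕ) (K C N : ℕ) : unread S u v K C N = uns S u v K C N := by
  classical
  unfold unread uns
  rw [ncard_range]

lemma emptyWindows_eq (S : Set ℕ) (K N : ℕ) : emptyWindows S K N = mis S K N := by
  classical
  unfold emptyWindows mis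
  rw [ncard_range]

lemma covering_iff (S : Set ℕ) (u v : ℕ → ℕ) : Covering S u v ↔ Cov S u v := by
  unfold Covering Cov
  refine forall_congr' fun ε => forall_congr' fun hε => exists_congr fun K =>
    exists_congr fun C => ?_
  constructor
  · intro h
    filter_upwards [h, eventually_gt_atTop 0] with N h1 h2
    have : (0 : ℝ) < N := by exact_mod_cast h2
    rw [unread_eq, div_le_iff₀ this] at h1
    exact h1
  · intro h
    filter_upwards [h, eventually_gt_atTop 0] with N h1 h2
    have : (0 : ℝ) < N := by exact_mod_cast h2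
    rw [unread_eq, div_le_iff₀ this]
    exact h1

lemma windows_iff (S : Set ℕ) : MeetsMostWindows S ↔
    ∀ ε : ℝ, 0 < ε → ∃ K : ℕ, ∀ᶠ M : ℕ in atTop, (mis S K M : ℝ) ≤ ε * M := by
  unfold MeetsMostWindows
  refine forall_congr' fun ε => forall_congr' fun hε => exists_congr fun K => ?_
  constructor
  · intro h
    filter_upwards [h, eventually_gt_atTop 0] with N h1 h2
    have : (0 : ℝ) < N := by exact_mod_cast h2
    rw [emptyWindows_eq, div_le_iff₀ this] at h1
    exact h1
  · intro h
    filter_upwards [h, eventually_gt_atTop 0] with N h1 h2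
    have : (0 : ℝ) < N := by exact_mod_cast h2
    rw [emptyWindows_eq, div_le_iff₀ this]
    exact h1

section

variable {b : ℕ} [NeZero b]

/-- the digits as a sequence -/
noncomputable def dig (b : ℕ) [NeZero b] (x : ℝ) (i : ℕ) : Fin b :=
  ⟨(digit b x i).toNat, by
    have h1 : (0 : ℤ) < b := by exact_mod_cast Nat.pos_of_ne_zero (NeZero.ne b)
    have h2 : digit b x i < b := Int.emod_lt_of_pos _ h1
    omega⟩

lemma dig_eq (x : ℝ) (i : ℕ) (d : Fin b) : dig b x i = d ↔ digit b x i = ((d : ℕ) : ℤ) := by
  have h1 : (0 : ℤ) < b := by exact_mod_cast Nat.pos_of_ne_zero (NeZero.ne b)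
  have h0 : 0 ≤ digit b x i := Int.emod_nonneg _ h1.ne'
  unfold dig
  rw [Fin.ext_iff]
  simp only
  omega

lemma standsAt_iff (x : ℝ) (i : ℕ) {k : ℕ} (w : Fin k → Fin b) :
    StandsAt b x i w ↔ wd (dig b x) k i = w := by
  unfold StandsAt
  rw [funext_iff]
  apply forall_congr'
  intro j
  exact (dig_eq x _ _).symm

lemma occ_eq (x : ℝ) (N : ℕ) {k : ℕ} (w : Fin k → Fin b) :
    occ b x N w = cS Set.univ (dig b x) N w := by
  classical
  unfold occ cS
  simp only [standsAt_iff, Set.mem_univ, true_and]
  rw [ncard_range]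

lemma occIn_eq (S : Set ℕ) (x : ℝ) (s t : ℕ) {k : ℕ} (w : Fin k → Fin b) :
    occIn b S x s t w = cJ S (dig b x) s t w := by
  classical
  unfold occIn cJ
  simp only [standsAt_iff]
  rw [ncard_Ico]

lemma normal_iff (x : ℝ) : Normal b x ↔ ∀ k : ℕ, 0 < k → ∀ w : Fin k → Fin b,
    Tendsto (fun N : ℕ => (cS Set.univ (dig b x) N w : ℝ) / N) atTop (𝓝 (pb b k)) := by
  unfold Normal
  simp only [occ_eq]
  rfl

lemma normalAlong_iff (S : Set ℕ) (u v : ℕ → ℕ) (x : ℝ) : NormalAlong b S u v x ↔
    Pool.Agent.Helper28.IV2.Norm S u v (dig b x) := by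
  unfold NormalAlong Pool.Agent.Helper28.IV2.Norm
  simp only [occIn_eq, size_eq]
  rfl

/-- a sequence which is normal along the intervals has infinitely many zeros -/
lemma zeros {S : Set ℕ} {u v : ℕ → ℕ}
    (hlim : Tendsto (fun j => nJ S (u j) (v j)) atTop atTop)
    {a : ℕ → Fin b} (ha : Pool.Agent.Helper28.IV2.Norm S u v a) : ∀ M, ∃ n, M ≤ n ∧ a n = 0 := by
  intro M
  by_contra hcon
  push Not at hcon
  have h3 : ∀ j, cJ S a (u j) (v j) (fun _ : Fin 1 => (0 : Fin b)) ≤ M := by
    intro j
    classical
    unfold cJ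
    calc _ ≤ (Finset.range M).card := by
          apply Finset.card_le_card
          intro s hs
          rw [Finset.mem_filter] at hs
          rw [Finset.mem_range]
          by_contra hsM
          push Not at hsM
          have h4 := congrFun hs.2.2 0
          unfold wd at h4
          exact hcon s hsM (by simpa using h4)
      _ = M := Finset.card_range M
  have hlen : Tendsto (fun j => (nJ S (u j) (v j) : ℝ)) atTop atTop :=
    tendsto_natCast_atTop_atTop.comp hlim
  have h4 := ha 1 one_pos (fun _ => 0)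
  have h5 : Tendsto (fun j : ℕ => (cJ S a (u j) (v j) (fun _ : Fin 1 => (0 : Fin b)) : ℝ) /
      (nJ S (u j) (v j) : ℝ)) atTop (𝓝 0) := by
    have h6 : Tendsto (fun j : ℕ => (M : ℝ) / (nJ S (u j) (v j) : ℝ)) atTop (𝓝 0) :=
      tendsto_const_nhds.div_atTop hlen
    refine squeeze_zero (fun j => by positivity) (fun j => ?_) h6
    apply div_le_div_of_nonneg_right _ (Nat.cast_nonneg _)
    exact_mod_cast h3 j
  have h6 := tendsto_nhds_unique h4 h5
  have h7 := (pb_mem (b := b) (m := 1)).1
  linarith

lemma real_of (hb : 2 ≤ b) {S : Set ℕ} {u v : ℕ → ℕ}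
    (hlim : Tendsto (fun j => nJ S (u j) (v j)) atTop atTop) {a : ℕ → Fin b}
    (ha : Pool.Agent.Helper28.IV2.Norm S u v a) : ∃ x : ℝ, dig b x = a := by
  obtain ⟨x, hx⟩ := exists_real hb a (zeros hlim ha)
  refine ⟨x, ?_⟩
  funext i
  rw [dig_eq]
  exact hx i

end

lemma nJ_zero (S : Set ℕ) (N : ℕ) : nJ S 0 N = nS S N := by
  classical
  unfold nJ nS
  congr 1
  ext i
  simp

lemma cJ_zero {b : ℕ} (S : Set ℕ) (a : ℕ → Fin b) (N : ℕ) {k : ℕ} (w : Fin k → Fin b) :
    cJ S a 0 N w = cS S a N w := by
  classical
  unfold cJ cS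
  congr 1
  ext i
  simp

/-- **Which places in which intervals decide normality.** -/
theorem result : ∀ b : ℕ, 2 ≤ b →
    (∀ (S : Set ℕ) (u v : ℕ → ℕ), Tendsto (fun j => size S (u j) (v j)) atTop atTop →
      -- (1) sufficiency: upper bounds suffice
      (Covering S u v → ∀ C x : ℝ, BoundedAlong b S u v C x → Normal b x) ∧
      -- (2) necessity
      (¬ Covering S u v → (∃ y : ℝ, NormalAlong b S u v y) →
        ∃ x : ℝ, NormalAlong b S u v x ∧ ¬ Normal b x) ∧
      -- (3) existence
      (Summable (fun j => 1 / (size S (u j) (v j) : ℝ)) → ∃ y : ℝ, NormalAlong b S u v y)) ∧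
    -- (4) cutoffs
    (∀ (S : Set ℕ) (N : ℕ → ℕ), S.Infinite → StrictMono N → 0 < N 0 →
      ((∀ x : ℝ, NormalAlong b S (fun _ => 0) N x → Normal b x) ↔
        (MeetsMostWindows S ∧ ∃ C : ℕ, ∀ j, N (j + 1) ≤ C * N j)) ∧
      ∃ y : ℝ, NormalAlong b S (fun _ => 0) N y) := by
  intro b hb
  have hbn : NeZero b := ⟨by omega⟩
  have hb0 : (0 : ℝ) < b := by exact_mod_cast (by omega : 0 < b)
  have h1 : ∀ (S : Set ℕ) (u v : ℕ → ℕ), Tendsto (fun j => nJ S (u j) (v j)) atTop atTop →
      Covering S u v → ∀ C x : ℝ, BoundedAlong b S u v C x → Normal b x := by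
    intro S u v hlim hc C x hx
    rw [normal_iff]
    refine A.main b S u v (dig b x) hlim ((covering_iff S u v).1 hc) (max C 0) (le_max_right _ _)
      (fun k hk w η hη => ?_)
    filter_upwards [hx k hk w η hη, hlim.eventually_gt_atTop 0] with j hj hj0
    have hl : (0 : ℝ) < (nJ S (u j) (v j) : ℝ) := by exact_mod_cast hj0
    rw [occIn_eq, size_eq, div_le_iff₀ hl] at hj
    refine hj.trans ?_
    apply mul_le_mul_of_nonneg_right _ hl.le
    have : C / (b : ℝ) ^ k ≤ max C 0 / (b : ℝ) ^ k :=
      div_le_div_of_nonneg_right (le_max_left _ _) (by positivity)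
    linarith
  have h1' : ∀ (S : Set ℕ) (u v : ℕ → ℕ), Tendsto (fun j => nJ S (u j) (v j)) atTop atTop →
      Covering S u v → ∀ x : ℝ, NormalAlong b S u v x → Normal b x := by
    intro S u v hlim hc x hx
    refine h1 S u v hlim hc 1 x (fun k hk w η hη => ?_)
    have h3 := hx k hk w
    have h4 := h3.eventually (gt_mem_nhds (by linarith : (1 : ℝ) / (b : ℝ) ^ k <
      1 / (b : ℝ) ^ k + η))
    filter_upwards [h4] with N hN
    exact hN.le
  have h2 : ∀ (S : Set ℕ) (u v : ℕ → ℕ), Tendsto (fun j => nJ S (u j) (v j)) atTop atTop →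
      ¬ Covering S u v → (∃ y : ℝ, NormalAlong b S u v y) →
        ∃ x : ℝ, NormalAlong b S u v x ∧ ¬ Normal b x := by
    intro S u v hlim hc hy
    obtain ⟨y, hy⟩ := hy
    rw [normalAlong_iff] at hy
    obtain ⟨ε, N, Z, hε, hN, hZ1, hZ2, hZ3⟩ := Pool.Agent.Helper54.IV2.Z.main S u v
      (fun h => hc ((covering_iff S u v).2 h))
    obtain ⟨a, ha1, m, w, hm, ha2⟩ := Pool.Agent.Helper30.IV2.N.main b S u v (dig b y) hb hlim hy
      ε N Z hε hN hZ1 hZ2 hZ3
    obtain ⟨x, hx⟩ := real_of hb hlim ha1
    refine ⟨x, ?_, ?_⟩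
    · rw [normalAlong_iff, hx]
      exact ha1
    · rw [normal_iff, hx]
      intro h
      exact ha2 (h m hm w)
  have h3 : ∀ (S : Set ℕ) (u v : ℕ → ℕ), Tendsto (fun j => nJ S (u j) (v j)) atTop atTop →
      Summable (fun j => 1 / (nJ S (u j) (v j) : ℝ)) → ∃ y : ℝ, NormalAlong b S u v y := by
    intro S u v hlim hs
    obtain ⟨J, hJ⟩ := eventually_atTop.1 (hlim.eventually_gt_atTop 0)
    have hs2 : Summable (fun j => 1 / (nJ S (u (j + J)) (v (j + J)) : ℝ)) :=
      (summable_nat_add_iff (f := fun j => 1 / (nJ S (u j) (v j) : ℝ)) J).2 hs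
    obtain ⟨a, ha⟩ := Pool.Agent.Helper54.IV2.C.main b S (fun j => u (j + J)) (fun j => v (j + J)) hb
      (fun j => hJ (j + J) (by omega)) hs2
    have ha2 : Pool.Agent.Helper28.IV2.Norm S u v a := by
      intro k hk w
      exact (tendsto_add_atTop_iff_nat (f := fun j => (cJ S a (u j) (v j) w : ℝ) /
        (nJ S (u j) (v j) : ℝ)) J).1 (ha k hk w)
    obtain ⟨x, hx⟩ := real_of hb hlim ha2
    refine ⟨x, ?_⟩
    rw [normalAlong_iff, hx]
    exact ha2
  refine ⟨fun S u v hlim => ?_, fun S N hS hN hN0 => ?_⟩
  · simp only [size_eq] at hlim ⊢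
    exact ⟨h1 S u v hlim, h2 S u v hlim, h3 S u v hlim⟩
  · have hlim : Tendsto (fun j => nJ S ((fun _ => 0) j) (N j)) atTop atTop := by
      simp only [nJ_zero]
      exact (nS_tendsto hS).comp hN.tendsto_atTop
    have hy : ∃ y : ℝ, NormalAlong b S (fun _ => 0) N y := by
      obtain ⟨a, ha⟩ := exists_seq_S b hS
      have ha2 : Pool.Agent.Helper28.IV2.Norm S (fun _ => 0) N a := by
        intro k hk w
        have h5 := (ha k hk w).comp hN.tendsto_atTop
        refine h5.congr fun j => ?_
        simp only [Function.comp, cJ_zero, nJ_zero]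
      obtain ⟨x, hx⟩ := real_of hb hlim ha2
      refine ⟨x, ?_⟩
      rw [normalAlong_iff, hx]
      exact ha2
    refine ⟨?_, hy⟩
    rw [windows_iff, ← Pool.Agent.Helper76.IV2.D.main S N hN hN0, ← covering_iff]
    constructor
    · intro h
      by_contra hcon
      obtain ⟨x, hx1, hx2⟩ := h2 S (fun _ => 0) N hlim hcon hy
      exact hx2 (h x hx1)
    · intro h x hx
      exact h1' S (fun _ => 0) N hlim h x hx

end Pool.Agent.Results.MP_57632f_nt.PlacesInIntervals
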