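import Mathlib
import Pool.Agent.Helper5.PE.Main
import Pool.Graph.R_pool_sql_team_seeded_1e53cb71.Results.MP_57632f_nt.PrimeMultiplesOfPi

/-!
# `π y` for the typical points `y` of every process of positive entropy

Q1 says that `π y` is normal in base `10` for `y = 1`. We show that for EVERY ergodic stationary
process `(y_j)`, `j ∈ ℤ`, of base `b` digits of positive entropy (the present `y₀` is not determined by the
past), almost surely, the number `π * 0.y₀y₁y₂… + c` is normal in base `b`. More: its digits are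
asymptotically independent of the digits of `y`, along every set `S` of places fixed in advance. The
same holds for every irrational number which is not a Liouville number in place of `π`.

(In other words: for every ergodic measure of positive entropy, invariant under multiplication by `b`
mod `1`, and almost every `Y`, the number `π Y` is normal in the same base `b`. For independent digits
this is a theorem of Dayan, Ganguly and Weiss, random walks on tori. It is false in entropy zero, and for
Liouville numbers in place of `π`.)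

Proof. Let `P` be the past and `Q_l = E[e(X B_l) q ∘ S^l | P]`, where `X = m x`, `B_l` is the integer with
the digits `y₀ … y_{l-1}` and `q` is a bounded function of the past. By orthogonality
`‖e(b^l X B_k) Q_l ∘ S^k - Q_{l+k}‖² = ‖Q_l‖² - ‖Q_{l+k}‖²`, which is small for large `l`, uniformly in `k`.
So `|Q_l| ∘ S^(-l)` converges to a function `w`, measurable with respect to the remote past. Suppose
`w ≠ 0`. By ergodicity `w ∘ S^t` is bounded below for some `t` in each window of length `R`, apart from a
small proportion of the windows. At such places `k` the phases are well defined and give `e(b^k X B_{K'})`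
in terms of the past and of the digits `y_{K'} … y_{K'+K-1}`, with precision `b^(-R)`, hence also the
numbers `b^t X B_{K'}` mod 1 for `k ≤ t < k + R`. At the remaining few places we write down `b^t X B_{K'}`
mod 1 (to a bounded precision); this takes few bits. So the past, the digits `y_{K'} … y_{K'+K-1}`,
`K ≈ κ K'`, and few bits determine `X B_{K'}` mod `1` up to `b^(-K)`, and, as `x` is not a Liouville number,
the digits `y₀ … y_{K'-1}`. This contradicts the positivity of the entropy. So `Q_l → 0`. A law of large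
numbers (orthogonality) and the pointwise ergodic theorem give the vanishing of all weighted
exponential sums, for almost every `y`.
-/

set_option autoImplicit false

open MeasureTheory Filter Topology

namespace Pool.Agent.Results.MP_57632f_nt.PositiveEntropyProcesses

/-- `w` stands in `z` at the places `n + 1, …, n + k` after the point (base `b` digits) -/
def StandsAt {b k : ℕ} (w : Fin k → Fin b) (z : ℝ) (n : ℕ) : Prop :=
  ∀ i : Fin k, ⌊z * (b : ℝ) ^ (n + 1 + (i : ℕ))⌋ % b = ((w i : ℕ) : ℤ)

/-- `z` is normal in base `b`: every word of length `k` occurs in the digits of `z` with frequency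
`1 / b ^ k` -/
def Normal (b : ℕ) (z : ℝ) : Prop :=
  ∀ k : ℕ, 0 < k → ∀ w : Fin k → Fin b,
    Tendsto (fun N : ℕ => (({n : ℕ | n < N ∧ StandsAt w z n}.ncard : ℕ) : ℝ) / N) atTop
      (𝓝 (1 / (b : ℝ) ^ k))

/-- the σ-algebra generated by the coordinates before time `0` -/
@[reducible] def Past (b : ℕ) : MeasurableSpace (ℤ → Fin b) :=
  MeasurableSpace.comap (fun (y : ℤ → Fin b) (i : Set.Iio (0 : ℤ)) => y i) MeasurableSpace.pi

/-- `μ` is the law of an ergodic stationary process `(y_j)`, `j ∈ ℤ`, of base `b` digits whose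
present `y₀` is not determined by its past `(y_j)`, `j < 0`. (Such processes are those of positive
entropy.) -/
structure PositiveEntropyProcess (b : ℕ) (μ : Measure (ℤ → Fin b)) : Prop where
  prob : IsProbabilityMeasure μ
  ergodic : Ergodic (fun (y : ℤ → Fin b) (j : ℤ) => y (j + 1)) μ
  not_determined : ∃ d : Fin b, ∀ A : Set (ℤ → Fin b), MeasurableSet[Past b] A →
    ¬ (A =ᵐ[μ] {y | y 0 = d})

/-- the real number `0.y₀y₁y₂…` in base `b` -/
noncomputable def number {b : ℕ} (y : ℤ → Fin b) : ℝ := Real.ofDigits (fun j : ℕ => y j)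

/-- Along the places of `S`, the digits of `z` are asymptotically independent of those of `y` and
uniformly distributed: if `u` stands in `y` at `c_N` of the places `n < N`, `n ∈ S`, then `w` stands in
`z` at `c_N / b ^ k + o(N)` of these. -/
def DigitsIndependent {b : ℕ} (S : Set ℕ) (y : ℤ → Fin b) (z : ℝ) : Prop :=
  ∀ (j k : ℕ) (u : Fin j → Fin b) (w : Fin k → Fin b),
    Tendsto (fun N : ℕ =>
      ((({n : ℕ | n < N ∧ n ∈ S ∧ (∀ i : Fin j, y ((n + (i : ℕ) : ℕ) : ℤ) = u i) ∧
          StandsAt w z n}.ncard : ℕ) : ℝ) -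
        (({n : ℕ | n < N ∧ n ∈ S ∧
          (∀ i : Fin j, y ((n + (i : ℕ) : ℕ) : ℤ) = u i)}.ncard : ℕ) : ℝ) / (b : ℝ) ^ k) / N)
      atTop (𝓝 0)

theorem number_eq {b : ℕ} (y : ℤ → Fin b) : number y = Pool.Agent.Helper5.KM.val y := by
  unfold number Real.ofDigits Pool.Agent.Helper5.KM.val
  refine tsum_congr fun j => ?_
  rw [Real.ofDigitsTerm, div_eq_mul_inv]

theorem normal_of_independent {b : ℕ} (y : ℤ → Fin b) (z : ℝ)
    (h : DigitsIndependent Set.univ y z) : Normal b z := by
  intro k hk w
  have h1 := h 0 k (fun i => i.elim0) w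
  have h2 : Tendsto (fun N : ℕ => ((N : ℝ) / (b : ℝ) ^ k) / N) atTop (𝓝 (1 / (b : ℝ) ^ k)) := by
    refine tendsto_const_nhds.congr' ?_
    filter_upwards [eventually_gt_atTop 0] with N hN
    have hN' : (N : ℝ) ≠ 0 := by exact_mod_cast hN.ne'
    field_simp
  have h3 := h1.add h2
  rw [zero_add] at h3
  refine h3.congr fun N => ?_
  rw [← add_div]
  congr 1
  have e1 : {n : ℕ | n < N ∧ n ∈ Set.univ ∧
      (∀ i : Fin 0, y ((n + (i : ℕ) : ℕ) : ℤ) = (fun i => i.elim0 : Fin 0 → Fin b) i)} =
      ((Finset.range N : Finset ℕ) : Set ℕ) := by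
    ext n
    simp
  have e2 : {n : ℕ | n < N ∧ n ∈ Set.univ ∧
      (∀ i : Fin 0, y ((n + (i : ℕ) : ℕ) : ℤ) = (fun i => i.elim0 : Fin 0 → Fin b) i) ∧
      StandsAt w z n} = {n : ℕ | n < N ∧ StandsAt w z n} := by
    ext n
    simp
  rw [e1, e2, Set.ncard_coe_finset, Finset.card_range]
  ring

theorem pi_not_liouville : ¬ Liouville Real.pi := by
  intro h
  obtain ⟨c, hc, hm⟩ := Pool.Agent.Results.MP_57632f_nt.PrimeMultiplesOfPi.pi_measure
  obtain ⟨m, hm2⟩ := exists_nat_gt (1 / c)
  obtain ⟨a, q, hq, _, h2⟩ := h (7 + m)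
  have hq0 : (0 : ℝ) < q := by exact_mod_cast (by omega : (0 : ℤ) < q)
  have hq2 : (2 : ℝ) ≤ q := by exact_mod_cast (by omega : (2 : ℤ) ≤ q)
  have hqn : ((q.toNat : ℕ) : ℝ) = q := by
    have : ((q.toNat : ℕ) : ℤ) = q := Int.toNat_of_nonneg (by omega)
    exact_mod_cast this
  have h3 := hm q.toNat (by omega) a
  rw [hqn] at h3
  have h4 : |(q : ℝ) * Real.pi - a| = q * |Real.pi - a / q| := by
    rw [← abs_of_pos hq0, ← abs_mul, abs_of_pos hq0]
    congr 1
    field_simp
  rw [h4] at h3
  have h5 : (q : ℝ) ^ (5.05 : ℝ) ≤ (q : ℝ) ^ (6 : ℝ) :=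
    Real.rpow_le_rpow_of_exponent_le (by linarith) (by norm_num)
  have h6 : (q : ℝ) ^ (6 : ℝ) = (q : ℝ) ^ 6 := by
    rw [← Real.rpow_natCast]; norm_num
  rw [h6] at h5
  have h7 : (0 : ℝ) ≤ q * |Real.pi - a / q| := by positivity
  have h8 : c ≤ (q : ℝ) ^ 6 * (q * |Real.pi - a / q|) :=
    h3.trans (mul_le_mul_of_nonneg_right h5 h7)
  have h9 : (q : ℝ) ^ 6 * (q * |Real.pi - a / q|) ≤ 1 / (q : ℝ) ^ m := by
    calc (q : ℝ) ^ 6 * (q * |Real.pi - a / q|) = (q : ℝ) ^ 7 * |Real.pi - a / q| := by ring
      _ ≤ (q : ℝ) ^ 7 * (1 / (q : ℝ) ^ (7 + m)) := by gcongr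
      _ = 1 / (q : ℝ) ^ m := by rw [pow_add]; field_simp
  have h10 : (m : ℝ) < (q : ℝ) ^ m := by
    have h11 : (m : ℝ) < (2 : ℝ) ^ m := by exact_mod_cast Nat.lt_two_pow_self
    exact h11.trans_le (pow_le_pow_left₀ (by norm_num) hq2 m)
  have hqm : (0 : ℝ) < (q : ℝ) ^ m := by positivity
  have h11 := h8.trans h9
  rw [le_div_iff₀ hqm] at h11
  rw [div_lt_iff₀ hc] at hm2
  nlinarith

/-- **For every ergodic process `y` of positive entropy the number `π y` is almost surely normal, and
its digits are independent of those of `y`.** -/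
theorem result :
    (∀ b : ℕ, 2 ≤ b → ∀ μ : Measure (ℤ → Fin b), PositiveEntropyProcess b μ →
      ∀ x : ℝ, Irrational x → ¬ Liouville x → ∀ c : ℝ,
        (∀ᵐ y ∂μ, Normal b (x * number y + c)) ∧
        ∀ S : Set ℕ, ∀ᵐ y ∂μ, DigitsIndependent S y (x * number y + c)) ∧
    (Irrational Real.pi ∧ ¬ Liouville Real.pi) := by
  refine ⟨?_, irrational_pi, pi_not_liouville⟩
  intro b hb μ hμ x hx hL c
  have := hμ.prob
  have hK : Pool.Agent.Helper5.NE.EProc b μ := ⟨hμ.ergodic, hμ.not_determined⟩
  have hS : ∀ S : Set ℕ, ∀ᵐ y ∂μ, DigitsIndependent S y (x * number y + c) := by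
    intro S
    filter_upwards [Pool.Agent.Helper5.PE.joint hb hK hx hL c S] with y hy
    rw [number_eq]
    exact hy
  refine ⟨?_, hS⟩
  filter_upwards [hS Set.univ] with y hy
  exact normal_of_independent y _ hy

end Pool.Agent.Results.MP_57632f_nt.PositiveEntropyProcesses
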